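import Mathlib

/-!
# Project LI: linear independence of `1, ζ(2), ζ(3)` over the rationals. Definitions

`R_n(t) = ∏_{0 ≤ j < n} (t - j)^2 / ∏_{1 ≤ k ≤ 3n} (t + k)^2`, and for real `v, w` the functional

`F(f) = v (∑_{l ≥ 0} (f R_n)(l + 1/2) - ∑_{j ≥ 0} (f R_n)(j)) - w ∑_{j ≥ 0} (f R_n)'(j)`.

If `u + v ζ(2) + w ζ(3) = 0` then `F(f)` is rational for rational polynomials `f` of degree `≤ 4n - 2`, and equal to
`Fq n u v w f` below; it is also equal to `Fc n v w f` (integral over the vertical line `Re t = n/2 + 1/4` plus the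
values at the half-integers `1/2, 3/2, …, n/2`, for odd `n`). The proof compares the two sides for the Hankel
determinant of size `2n`.
-/

open Polynomial Finset

namespace Pool.Agent.Y926.LI

noncomputable section

/-! ### rational side -/

/-- `∑_{j=1}^{m} 1/j^e` -/
def Hs (e m : ℕ) : ℚ := ∑ j ∈ range m, 1 / ((j : ℚ) + 1) ^ e

/-- `∑_{i=0}^{m-1} 1/(i+1/2)^e` -/
def Os (e m : ℕ) : ℚ := ∑ i ∈ range m, 1 / ((i : ℚ) + 1 / 2) ^ e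

/-- the value of `R_n(t) (t+k)^2` at `t = -k` -/
def gw (n k : ℕ) : ℚ :=
  (∏ j ∈ range n, ((k : ℚ) + j) ^ 2) / ∏ l ∈ (Icc 1 (3 * n)).erase k, ((l : ℚ) - k) ^ 2

/-- the logarithmic derivative of `R_n(t) (t+k)^2` at `t = -k` -/
def Lw (n k : ℕ) : ℚ :=
  -(∑ j ∈ range n, 2 / ((k : ℚ) + j)) - ∑ l ∈ (Icc 1 (3 * n)).erase k, 2 / ((l : ℚ) - k)

/-- weight of the coefficient of `1/(t+k)^2` -/
def c2 (u v w : ℚ) (k : ℕ) : ℚ :=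
  -2 * u - v * (Os 2 k - Hs 2 (k - 1)) - 2 * w * Hs 3 (k - 1)

/-- weight of the coefficient of `1/(t+k)` -/
def c1 (v w : ℚ) (k : ℕ) : ℚ := -v * (Os 1 k - Hs 1 (k - 1)) - w * Hs 2 (k - 1)

def al (n : ℕ) (u v w : ℚ) (k : ℕ) : ℚ := gw n k * (c2 u v w k + Lw n k * c1 v w k)

def be (n : ℕ) (v w : ℚ) (k : ℕ) : ℚ := gw n k * c1 v w k

/-- a functional supported on double nodes `-k`, `k ∈ S` -/
def Fn (S : Finset ℕ) (α β : ℕ → ℚ) (f : ℚ[X]) : ℚ :=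
  ∑ k ∈ S, (α k * f.eval (-(k : ℚ)) + β k * (derivative f).eval (-(k : ℚ)))

/-- its Hankel determinant of size `m` -/
def Hk (S : Finset ℕ) (α β : ℕ → ℚ) (m : ℕ) : ℚ :=
  (Matrix.of fun i j : Fin m => Fn S α β (X ^ (i.1 + j.1))).det

/-- the rational functional -/
def Fq (n : ℕ) (u v w : ℚ) (f : ℚ[X]) : ℚ := Fn (Icc 1 (3 * n)) (al n u v w) (be n v w) f

/-- the rational Hankel determinant of size `2n` -/
def Dq (n : ℕ) (u v w : ℚ) : ℚ := Hk (Icc 1 (3 * n)) (al n u v w) (be n v w) (2 * n)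

/-- `∏_{k ≠ l} |k - l| ∏_{i ≠ j} |i - j| / ∏ (k + j)^2`, `1 ≤ k, l ≤ 3n`, `0 ≤ i, j < n` -/
def PiN (n : ℕ) : ℚ :=
  (∏ k ∈ Icc 1 (3 * n), ∏ l ∈ (Icc 1 (3 * n)).erase k, |(k : ℚ) - l|) *
    (∏ i ∈ range n, ∏ j ∈ (range n).erase i, |(i : ℚ) - j|) /
    ∏ k ∈ Icc 1 (3 * n), ∏ j ∈ range n, ((k : ℚ) + j) ^ 2

/-- `lcm(1, …, x)` -/
def lcmU (x : ℕ) : ℕ := (Icc 1 x).lcm id

def LN (n : ℕ) : ℕ :=
  (∏ x ∈ Ico (2 * n) (3 * n), lcmU x ^ 5) * (∏ x ∈ Ico (3 * n) (6 * n), lcmU x) * lcmU (6 * n) ^ 2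

/-! ### analytic side -/

def z2 : ℝ := ∑' k : ℕ, 1 / ((k : ℝ) + 1) ^ 2

def z3 : ℝ := ∑' k : ℕ, 1 / ((k : ℝ) + 1) ^ 3

/-- abscissa of the line, `n` odd -/
def x0 (n : ℕ) : ℝ := n / 2 + 1 / 4

/-- points of the line -/
def tl (n : ℕ) (Y : ℝ) : ℂ := (x0 n : ℂ) + Y * Complex.I

def Rc (n : ℕ) (t : ℂ) : ℂ := (∏ j ∈ range n, (t - j) ^ 2) / ∏ k ∈ Icc 1 (3 * n), (t + k) ^ 2

def kap (v w : ℝ) (t : ℂ) : ℂ :=
  w * (Real.pi : ℂ) ^ 2 / Complex.sin (Real.pi * t) ^ 2 + v * (2 * Real.pi) / Complex.sin (2 * Real.pi * t)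

/-- the analytic functional -/
def Fc (n : ℕ) (v w : ℝ) (f : ℂ[X]) : ℂ :=
  (1 / (2 * Real.pi) : ℂ) * (∫ Y : ℝ, f.eval (tl n Y) * Rc n (tl n Y) * kap v w (tl n Y)) +
    v * ∑ l ∈ range ((n + 1) / 2), f.eval ((l : ℂ) + 1 / 2) * Rc n ((l : ℂ) + 1 / 2)

/-- `∫_0^a log |s + i y| ds` -/
def Bf (a y : ℝ) : ℝ := a / 2 * Real.log (a ^ 2 + y ^ 2) - a + y * Real.arctan (a / y)

/-- the external field on the line -/
def V2 (y : ℝ) : ℝ := 8 * Bf (1 / 2) y - 2 * Bf (7 / 2) y - 157 / 25 * y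

/-- squares of the atoms `1/20, 1/4, 1/2, 4/5` -/
def etq : Fin 4 → ℝ := ![1 / 400, 1 / 16, 1 / 4, 16 / 25]

/-- masses, for the degrees `0, n/2, n, 3n/2` -/
def ems : Fin 4 → Fin 4 → ℝ :=
  ![![0, 0, 0, 0], ![0, 19 / 50, 3 / 25, 0], ![7 / 50, 3 / 10, 51 / 100, 1 / 20], ![9 / 50, 39 / 100, 31 / 50, 31 / 100]]

/-- levels -/
def Ms : Fin 4 → ℝ := ![-81 / 10, -473 / 50, -52 / 5, -223 / 20]

/-- linear interpolation of the levels: `Mi 0 = -8.1`, `Mi (1/2) = -9.46`, `Mi 1 = -10.4`, `Mi (3/2) = -11.15` -/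
def Mi (s : ℝ) : ℝ :=
  if s ≤ 1 / 2 then Ms 0 + 2 * s * (Ms 1 - Ms 0)
  else if s ≤ 1 then Ms 1 + (2 * s - 1) * (Ms 2 - Ms 1) else Ms 2 + (2 * s - 2) * (Ms 3 - Ms 2)

/-- exponent for the first `(n+1)/2` polynomials -/
def ph1 (n i : ℕ) : ℝ :=
  6 * i * Real.log i + 2 * ((n : ℝ) - i) * Real.log ((n : ℝ) - i) - 2 * (3 * n + i) * Real.log (3 * n + i) + 4 * n

/-- exponent for the others, `d = i - (n+1)/2` -/
def ph2 (n d : ℕ) : ℝ := n * Mi (d / n) - (3 * n - 2 * d) * Real.log n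

/-- `∏_{l < i} (X - (l + 1/2))` -/
def Bh (i : ℕ) : ℂ[X] := ∏ l ∈ range i, (X - C ((l : ℂ) + 1 / 2))

/-- `a^2` bounds `|f|^2 |R_n| e^{-2π|Y|} (1+Y^2)` on the line -/
def LineC (n : ℕ) (f : ℂ[X]) (a2 : ℝ) : Prop :=
  ∀ Y : ℝ, ‖f.eval (tl n Y)‖ ^ 2 * ‖Rc n (tl n Y)‖ * Real.exp (-(2 * Real.pi * |Y|)) * (1 + Y ^ 2) ≤ a2

/-- `a^2` bounds `|f|^2 |R_n|` at the half-integers to the left of the line -/
def AtomC (n : ℕ) (f : ℂ[X]) (a2 : ℝ) : Prop :=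
  ∀ l < (n + 1) / 2, ‖f.eval ((l : ℂ) + 1 / 2)‖ ^ 2 * ‖Rc n ((l : ℂ) + 1 / 2)‖ ≤ a2

/-! ### p-adic exponents -/

/-- `v_p` of the natural number `|k - l|` -/
def vd (p k l : ℕ) : ℤ := (padicValInt p ((k : ℤ) - l) : ℤ)

/-- `v_p(k + j)` -/
def vs (p k j : ℕ) : ℤ := (padicValNat p (k + j) : ℤ)

/-- `v_p(gw n k)` -/
def Gv (n p k : ℕ) : ℤ :=
  2 * ∑ j ∈ range n, vs p k j - 2 * ∑ l ∈ (Icc 1 (3 * n)).erase k, vd p l k

/-- largest valuation of a difference -/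
def mu (n p k : ℕ) : ℕ :=
  max ((range n).sup fun j => padicValNat p (k + j))
    (((Icc 1 (3 * n)).erase k).sup fun l => padicValInt p ((l : ℤ) - k))

/-- `max (2 h) h'`, `h = log_p (k-1)`, `h' = log_p (2k-1)` -/
def m1 (p k : ℕ) : ℕ := max (2 * Nat.log p (k - 1)) (Nat.log p (2 * k - 1))

def m2 (p k : ℕ) : ℕ := max (3 * Nat.log p (k - 1)) (2 * Nat.log p (2 * k - 1))

/-- lower bound for `v_p (be n v w k)` -/
def bb (n p k : ℕ) : ℤ := Gv n p k - m1 p k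

/-- lower bound for `v_p (al n u v w k)` and for `v_p (be n v w k) - mu` -/
def AA (n p k : ℕ) : ℤ := Gv n p k - max (m2 p k) (mu n p k + m1 p k)

/-- energy of a configuration `c` (multiplicities) -/
def En (S : Finset ℕ) (p : ℕ) (A b : ℕ → ℤ) (c : ℕ → ℕ) : ℤ :=
  (∑ k ∈ S, ∑ l ∈ S.erase k, (c k : ℤ) * c l * vd p k l) +
    ∑ k ∈ S, (if c k = 1 then A k else if c k = 2 then 2 * b k else 0)

end

end Pool.Agent.Y926.LI
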