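import Pool.Agent.Y926.LI.Defs

/-!
# Project LI: statements of the jobs
-/

open Polynomial Finset

namespace Pool.Agent.Y926.LI

noncomputable section

/-! ## p-adic part -/

/-- GRD: greedy lower bound for the `p`-adic valuation of a Hankel determinant of a functional with double nodes. -/
def S_GRD : Prop := ∀ (p : ℕ) [Fact p.Prime] (S : Finset ℕ) (α β : ℕ → ℚ) (A b : ℕ → ℤ) (m : ℕ),
  m ≤ 2 * S.card →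
  (∀ k ∈ S, α k = 0 ∨ A k ≤ padicValRat p (α k)) →
  (∀ k ∈ S, β k = 0 ∨ b k ≤ padicValRat p (β k)) →
  (∀ k ∈ S, A k ≤ b k) →
  (∀ k ∈ S, ∀ l ∈ S, k ≠ l → A k + vd p k l ≤ b k) →
  Hk S α β m ≠ 0 →
  ∃ c : ℕ → ℕ, (∀ k ∈ S, c k ≤ 2) ∧ ∑ k ∈ S, c k = m ∧ En S p A b c ≤ padicValRat p (Hk S α β m)

/-- WT: valuations of the weights. -/
def S_WT : Prop := ∀ (p : ℕ) [Fact p.Prime] (n : ℕ) (u v w : ℤ), 1 ≤ n → ∀ k ∈ Icc 1 (3 * n),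
  (al n u v w k = 0 ∨ AA n p k ≤ padicValRat p (al n u v w k)) ∧
  (be n v w k = 0 ∨ bb n p k ≤ padicValRat p (be n v w k)) ∧
  AA n p k ≤ bb n p k ∧ ∀ l ∈ Icc 1 (3 * n), k ≠ l → AA n p k + vd p k l ≤ bb n p k

def iq (q : ℕ) (x : ℤ) : ℤ := if (q : ℤ) ∣ x then 1 else 0

/-- gain of a slot at level `q` -/
def rq (q k : ℕ) : ℤ := if q ≤ k - 1 then 2 else if q ≤ 2 * k - 1 then 1 else 0

/-- `k` is active at level `q` -/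
def aq (n q k : ℕ) : Prop :=
  q ≤ 2 * k - 1 ∨ (∃ j < n, q ∣ k + j) ∨ ∃ l ∈ Icc 1 (3 * n), l ≠ k ∧ (q : ℤ) ∣ (l : ℤ) - k

open Classical in
def tq (n q k : ℕ) : ℤ := if aq n q k then rq q k + 1 else 0

def Xq (n q : ℕ) (c : ℕ → ℕ) : ℤ :=
  (∑ k ∈ Icc 1 (3 * n), ∑ l ∈ (Icc 1 (3 * n)).erase k, (c k : ℤ) * c l * iq q ((k : ℤ) - l)) +
    (∑ k ∈ Icc 1 (3 * n), (c k : ℤ) *
      (2 * ∑ j ∈ range n, iq q ((k : ℤ) + j) - 2 * ∑ l ∈ (Icc 1 (3 * n)).erase k, iq q ((l : ℤ) - k))) -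
    ∑ k ∈ Icc 1 (3 * n), (if c k = 1 then tq n q k else if c k = 2 then 2 * rq q k else 0)

def Oq (n q : ℕ) : ℤ :=
  (∑ k ∈ Icc 1 (3 * n), ∑ l ∈ (Icc 1 (3 * n)).erase k, iq q ((k : ℤ) - l)) +
    (∑ i ∈ range n, ∑ j ∈ (range n).erase i, iq q ((i : ℤ) - j)) -
    2 * ∑ k ∈ Icc 1 (3 * n), ∑ j ∈ range n, iq q ((k : ℤ) + j)

def wq (n q : ℕ) : ℕ :=
  5 * ((Ico (2 * n) (3 * n)).filter fun x => q ≤ x).card + ((Ico (3 * n) (6 * n)).filter fun x => q ≤ x).card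

/-- LEV1: the inequality at one level `q` (any integer `q ≥ 2`). -/
def S_LEV1 : Prop := ∀ (n q : ℕ) (c : ℕ → ℕ), 1 ≤ n → 2 ≤ q → (∀ k ∈ Icc 1 (3 * n), c k ≤ 2) →
  ∑ k ∈ Icc 1 (3 * n), c k = 2 * n → 0 ≤ Xq n q c + Oq n q + wq n q + 2

/-- LEV: sum over the levels `q = p, p^2, …`. -/
def S_LEV : Prop := ∀ (p : ℕ) [Fact p.Prime] (n : ℕ) (c : ℕ → ℕ), 1 ≤ n → (∀ k ∈ Icc 1 (3 * n), c k ≤ 2) →
  ∑ k ∈ Icc 1 (3 * n), c k = 2 * n →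
  0 ≤ En (Icc 1 (3 * n)) p (AA n p) (bb n p) c + padicValRat p (PiN n) +
    5 * ∑ x ∈ Ico (2 * n) (3 * n), (Nat.log p x : ℤ) + ∑ x ∈ Ico (3 * n) (6 * n), (Nat.log p x : ℤ) +
    2 * Nat.log p (6 * n)

/-- INT: integrality. -/
def S_INT : Prop := ∀ (n : ℕ) (u v w : ℤ), 1 ≤ n → ∃ z : ℤ, Dq n u v w * PiN n * LN n = z

/-- NONV: non-vanishing when `n` is a large prime. -/
def S_NONV : Prop := ∀ u v w : ℤ, w ≠ 0 → ∃ P0 : ℕ, ∀ p : ℕ, p.Prime → P0 ≤ p → Dq p u v w ≠ 0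

/-- PI: size of `PiN`. -/
def S_PI : Prop := ∀ ε : ℝ, 0 < ε → ∀ᶠ n : ℕ in Filter.atTop,
  Real.log (PiN n) ≤ 4 * (n : ℝ) ^ 2 * Real.log n +
    (18 * Real.log 3 - 16 * Real.log 4 - 6 + ε) * (n : ℝ) ^ 2

/-- LN: size of `LN` (prime number theorem). -/
def S_LN : Prop := ∀ ε : ℝ, 0 < ε → ∀ᶠ n : ℕ in Filter.atTop, Real.log (LN n) ≤ (26 + ε) * (n : ℝ) ^ 2

/-! ## representation -/

def A2 (n : ℕ) (f : ℚ[X]) (k : ℕ) : ℚ := f.eval (-(k : ℚ)) * gw n k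

def A1 (n : ℕ) (f : ℚ[X]) (k : ℕ) : ℚ :=
  (derivative f).eval (-(k : ℚ)) * gw n k + f.eval (-(k : ℚ)) * gw n k * Lw n k

/-- `f R_n` -/
def gf (n : ℕ) (f : ℚ[X]) (t : ℂ) : ℂ := (f.map (algebraMap ℚ ℂ)).eval t * Rc n t

/-- PFD: partial fractions. -/
def S_PFD : Prop := ∀ (n : ℕ) (f : ℚ[X]), 1 ≤ n → f.natDegree ≤ 4 * n - 2 →
  (∀ t : ℂ, (∀ k ∈ Icc 1 (3 * n), t + (k : ℂ) ≠ 0) →
    gf n f t = ∑ k ∈ Icc 1 (3 * n), ((A2 n f k : ℂ) / (t + k) ^ 2 + (A1 n f k : ℂ) / (t + k))) ∧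
  ∑ k ∈ Icc 1 (3 * n), A1 n f k = 0

/-- PFS: the three sums. -/
def S_PFS : Prop := ∀ (n : ℕ) (f : ℚ[X]), 1 ≤ n → f.natDegree ≤ 4 * n - 2 →
  HasSum (fun j : ℕ => gf n f j)
    ((z2 : ℂ) * (∑ k ∈ Icc 1 (3 * n), A2 n f k : ℚ) -
      (∑ k ∈ Icc 1 (3 * n), (A2 n f k * Hs 2 (k - 1) + A1 n f k * Hs 1 (k - 1)) : ℚ)) ∧
  HasSum (fun l : ℕ => gf n f ((l : ℂ) + 1 / 2))
    (3 * (z2 : ℂ) * (∑ k ∈ Icc 1 (3 * n), A2 n f k : ℚ) -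
      (∑ k ∈ Icc 1 (3 * n), (A2 n f k * Os 2 k + A1 n f k * Os 1 k) : ℚ)) ∧
  HasSum (fun j : ℕ => deriv (gf n f) j)
    (-(2 * (z3 : ℂ) * (∑ k ∈ Icc 1 (3 * n), A2 n f k : ℚ) -
      (∑ k ∈ Icc 1 (3 * n), (2 * A2 n f k * Hs 3 (k - 1) + A1 n f k * Hs 2 (k - 1)) : ℚ)))

/-- KERW: the kernel `π²/sin²`. -/
def S_KERW : Prop := ∀ (g : ℂ → ℂ) (C : ℝ) (n : ℕ), Odd n → DifferentiableOn ℂ g {t : ℂ | -1 < t.re} →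
  (∀ t : ℂ, -1 / 2 ≤ t.re → ‖g t‖ ≤ C / (1 + ‖t‖) ^ 2) →
  (1 / (2 * Real.pi) : ℂ) * (∫ Y : ℝ, g (tl n Y) * ((Real.pi : ℂ) ^ 2 / Complex.sin (Real.pi * tl n Y) ^ 2)) =
    -∑' j : ℕ, deriv g ((j : ℂ) + ((n + 1) / 2 : ℕ))

/-- KERV: the kernel `2π/sin(2πt)`. -/
def S_KERV : Prop := ∀ (g : ℂ → ℂ) (C : ℝ) (n : ℕ), Odd n → DifferentiableOn ℂ g {t : ℂ | -1 < t.re} →
  (∀ t : ℂ, -1 / 2 ≤ t.re → ‖g t‖ ≤ C / (1 + ‖t‖) ^ 2) →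
  (1 / (2 * Real.pi) : ℂ) * (∫ Y : ℝ, g (tl n Y) * (2 * Real.pi / Complex.sin (2 * Real.pi * tl n Y))) =
    (∑' l : ℕ, g ((l : ℂ) + ((n + 1) / 2 : ℕ) + 1 / 2)) - ∑' j : ℕ, g ((j : ℂ) + ((n + 1) / 2 : ℕ))

/-- LINK: the rational and the analytic functional agree. -/
def S_LINK : Prop := ∀ (n : ℕ) (u v w : ℤ), Odd n → (u : ℝ) + v * z2 + w * z3 = 0 →
  ∀ f : ℚ[X], f.natDegree ≤ 4 * n - 2 → ((Fq n u v w f : ℚ) : ℂ) = Fc n v w (f.map (algebraMap ℚ ℂ))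

/-! ## archimedean part -/

/-- LIN: `Fc` is linear. -/
def S_LIN : Prop := ∀ (n : ℕ) (v w : ℝ), Odd n → IsLinearMap ℂ (Fc n v w)

/-- BND: bound for `Fc` of a product. -/
def S_BND : Prop := ∀ v w : ℝ, ∃ C : ℝ, 0 ≤ C ∧ ∀ n : ℕ, Odd n → ∀ (f g : ℂ[X]) (a b : ℝ), 0 ≤ a → 0 ≤ b →
  LineC n f (a ^ 2) → AtomC n f (a ^ 2) → LineC n g (b ^ 2) → AtomC n g (b ^ 2) →
  ‖Fc n v w (f * g)‖ ≤ C * (n + 1) * (a * b)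

/-- DET: Hankel determinants and monic polynomials. -/
def S_DET : Prop := ∀ (F : ℂ[X] →ₗ[ℂ] ℂ) (m : ℕ) (B : ℕ → ℂ[X]) (a : ℕ → ℝ),
  (∀ i < m, (B i).Monic ∧ (B i).natDegree = i) → (∀ i, 0 ≤ a i) →
  (∀ i < m, ∀ j < m, ‖F (B i * B j)‖ ≤ a i * a j) →
  ‖(Matrix.of fun i j : Fin m => F (X ^ (i.1 + j.1))).det‖ ≤ m.factorial * ∏ i ∈ range m, a i ^ 2

/-- W2: products against integrals on the line. -/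
def S_W2 : Prop := ∃ C : ℕ, ∀ n : ℕ, Odd n → ∀ Y : ℝ,
  ‖(Bh ((n + 1) / 2)).eval (tl n Y)‖ ^ 2 * ‖Rc n (tl n Y)‖ ≤
    ((n : ℝ) + 1 + |Y|) ^ C *
      Real.exp (n * (8 * Bf (1 / 2) (|Y| / n) - 2 * Bf (7 / 2) (|Y| / n)) - 3 * n * Real.log n)

/-- CERT: the certificate. -/
def S_CERT : Prop := ∀ (y : ℝ) (j : Fin 4), 0 ≤ y →
  V2 y + ∑ l, ems j l * Real.log (max |y ^ 2 - etq l| (1 / 100)) ≤ Ms j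

/-- PH1L: the first polynomials on the line. -/
def S_PH1L : Prop := ∃ C N0 : ℕ, ∀ n : ℕ, Odd n → N0 ≤ n → ∀ i < (n + 1) / 2,
  LineC n (Bh i) (((n : ℝ) + 1) ^ C * Real.exp (ph1 n i))

/-- PH1A: the first polynomials at the half-integers. -/
def S_PH1A : Prop := ∃ C N0 : ℕ, ∀ n : ℕ, Odd n → N0 ≤ n → ∀ i < (n + 1) / 2,
  AtomC n (Bh i) (((n : ℝ) + 1) ^ C * Real.exp (ph1 n i))

/-- PH2: the other polynomials. -/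
def S_PH2 : Prop := ∃ C N0 : ℕ, ∀ n : ℕ, Odd n → N0 ≤ n → ∀ d : ℕ, 2 * d ≤ 3 * n →
  ∃ Q : ℂ[X], Q.Monic ∧ Q.natDegree = d ∧
    LineC n (Bh ((n + 1) / 2) * Q) (((n : ℝ) + 1) ^ C * Real.exp (ph2 n d))

/-- SUM: sum of the exponents. -/
def S_SUM : Prop := ∀ᶠ n : ℕ in Filter.atTop, Odd n →
  (∑ i ∈ range ((n + 1) / 2), ph1 n i) + ∑ d ∈ range (2 * n - (n + 1) / 2), ph2 n d ≤
    -(4 * (n : ℝ) ^ 2 * Real.log n) - 353 / 20 * (n : ℝ) ^ 2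

/-- ARCH: the archimedean bound. -/
def S_ARCH : Prop := ∀ v w : ℝ, ∀ᶠ n : ℕ in Filter.atTop, Odd n →
  ‖(Matrix.of fun i j : Fin (2 * n) => Fc n v w (X ^ (i.1 + j.1))).det‖ ≤
    Real.exp (-(4 * (n : ℝ) ^ 2 * Real.log n) - 441 / 25 * (n : ℝ) ^ 2)

/-- FIN: the theorem. -/
def S_FIN : Prop := ∀ u v w : ℤ, (u : ℝ) + v * z2 + w * z3 = 0 → u = 0 ∧ v = 0 ∧ w = 0

end

end Pool.Agent.Y926.LI
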